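import Pool.Agent.Helper79.GS.St3

set_option autoImplicit false

namespace Pool.Agent.Helper9.GS

open Pool.Agent.Helper79.GS Polynomial

private lemma sum_lt {B : ℕ} (d : ℕ → ℕ) (hd : ∀ r, d r < B) :
    ∀ L : ℕ, ∑ k ∈ Finset.range L, d k * B ^ k < B ^ L := by
  intro L
  induction L with
  | zero => simp
  | succ L ih =>
    rw [Finset.sum_range_succ, pow_succ]
    have h1 : d L * B ^ L + B ^ L ≤ B ^ L * B := by
      have := hd L
      calc d L * B ^ L + B ^ L = (d L + 1) * B ^ L := by ring
        _ ≤ B * B ^ L := Nat.mul_le_mul_right _ this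
        _ = B ^ L * B := by ring
    omega

private lemma dig {B : ℕ} (d : ℕ → ℕ) (hd : ∀ r, d r < B) :
    ∀ (L r : ℕ), r < L → ∀ c : ℕ,
      (∑ k ∈ Finset.range L, d k * B ^ k + B ^ L * c) / B ^ r % B = d r := by
  have hB : 0 < B := lt_of_le_of_lt (Nat.zero_le _) (hd 0)
  intro L
  induction L with
  | zero =>
    intro r hr
    exact absurd hr (Nat.not_lt_zero r)
  | succ L ih =>
    intro r hr c
    have e : ∑ k ∈ Finset.range (L + 1), d k * B ^ k + B ^ (L + 1) * c
        = ∑ k ∈ Finset.range L, d k * B ^ k + B ^ L * (d L + B * c) := by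
      rw [Finset.sum_range_succ, pow_succ]
      ring
    rw [e]
    rcases Nat.lt_succ_iff_lt_or_eq.mp hr with h | h
    · exact ih r h _
    · subst h
      rw [Nat.add_mul_div_left _ _ (pow_pos hB r), Nat.div_eq_of_lt (sum_lt d hd r), zero_add,
        Nat.add_mul_mod_self_left, Nat.mod_eq_of_lt (hd r)]

private lemma wt_lt (L : ℕ) (t : ℕ → ℕ) (ht : ∀ r, 1 ≤ t r ∧ t r ≤ 2 ^ (7 * L + 7)) (i j : ℕ) :
    wt L t i j < 2 ^ (8 * L ^ 2 + 8 * L) := by
  unfold wt
  have h1 : ∑ r ∈ Finset.range L, we L (t r) i j * (2 ^ (8 * L + 8)) ^ (L - 1 - r)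
      = ∑ r ∈ Finset.range L, we L (t (L - 1 - r)) i j * (2 ^ (8 * L + 8)) ^ r := by
    rw [← Finset.sum_range_reflect]
    refine Finset.sum_congr rfl fun r hr => ?_
    rw [Finset.mem_range] at hr
    have : L - 1 - (L - 1 - r) = r := by omega
    rw [this]
  rw [h1]
  have h2 := sum_lt (B := 2 ^ (8 * L + 8)) (fun r => we L (t (L - 1 - r)) i j) (fun r => by
    have hr := ht (L - 1 - r)
    calc we L (t (L - 1 - r)) i j < t (L - 1 - r) := Nat.mod_lt _ hr.1
      _ ≤ 2 ^ (7 * L + 7) := hr.2
      _ ≤ 2 ^ (8 * L + 8) := Nat.pow_le_pow_right (by norm_num) (by omega)) L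
  refine h2.trans_le (le_of_eq ?_)
  rw [← pow_mul]
  congr 1
  ring

open Classical in
private lemma det_expand {R : Type} [CommRing R] (n : ℕ) (E : ℕ → ℕ → Prop) (w : ℕ → ℕ → ℕ) (x : R) :
    (Matrix.of (fun i j : Fin n => if E i.val j.val then x ^ w i.val j.val else 0)).det
      = ∑ σ : Equiv.Perm (Fin n), (((Equiv.Perm.sign σ : ℤˣ) : ℤ) : R) *
          (if (∀ i : Fin n, E i.val (σ i).val) then x ^ (∑ i : Fin n, w i.val (σ i).val) else 0) := by
  rw [← Matrix.det_transpose, Matrix.det_apply']
  refine Finset.sum_congr rfl fun σ _ => ?_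
  congr 1
  by_cases h : ∀ i : Fin n, E i.val (σ i).val
  · rw [if_pos h, ← Finset.prod_pow_eq_pow_sum]
    refine Finset.prod_congr rfl fun i _ => ?_
    rw [Matrix.transpose_apply, Matrix.of_apply, if_pos (h i)]
  · rw [if_neg h]
    push Not at h
    obtain ⟨i, hi⟩ := h
    apply Finset.prod_eq_zero (Finset.mem_univ i)
    rw [Matrix.transpose_apply, Matrix.of_apply, if_neg hi]

theorem hDNZ (hISO : StISO) : StDNZ := by
  classical
  intro L E
  constructor
  · rintro ⟨σ1, hσ1⟩
    obtain ⟨t, ht, σ0, hσ0, hmin⟩ := hISO L (fun i j => E i.val j.val) ⟨σ1, hσ1⟩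
    set W : ℕ → ℕ → ℕ := wt L t with hW
    set G : ℕ := 2 ^ (8 * L ^ 2 + 9 * L) with hG
    obtain ⟨p, hp, hGp, hpG⟩ := Nat.exists_prime_lt_and_le_two_mul G (by positivity)
    have : Fact p.Prime := ⟨hp⟩
    -- the determinant over the polynomials
    set D : (ZMod p)[X] :=
      (Matrix.of (fun i j : Fin (2 ^ L) => if E i.val j.val then (X : (ZMod p)[X]) ^ W i.val j.val else 0)).det
      with hD
    have hDexp := det_expand (2 ^ L) E W (X : (ZMod p)[X])
    rw [← hD] at hDexp
    have hcoeff : D.coeff (wsum (fun i j : Fin (2 ^ L) => W i.val j.val) σ0)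
        = (((Equiv.Perm.sign σ0 : ℤˣ) : ℤ) : ZMod p) := by
      rw [hDexp, Polynomial.finsetSum_coeff]
      rw [Finset.sum_eq_single σ0]
      · have hσ0' : ∀ i : Fin (2 ^ L), E i.val (σ0 i).val := hσ0
        rw [if_pos hσ0']
        have : (((Equiv.Perm.sign σ0 : ℤˣ) : ℤ) : (ZMod p)[X])
            = C ((((Equiv.Perm.sign σ0 : ℤˣ) : ℤ) : ZMod p)) := by
          simp
        rw [this, Polynomial.coeff_C_mul, Polynomial.coeff_X_pow]
        unfold wsum
        simp
      · intro τ _ hτ
        have : (((Equiv.Perm.sign τ : ℤˣ) : ℤ) : (ZMod p)[X])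
            = C ((((Equiv.Perm.sign τ : ℤˣ) : ℤ) : ZMod p)) := by
          simp
        rw [this, Polynomial.coeff_C_mul]
        by_cases h : ∀ i : Fin (2 ^ L), E i.val (τ i).val
        · rw [if_pos h, Polynomial.coeff_X_pow, if_neg, mul_zero]
          have h1 := hmin τ h hτ
          intro he
          exact absurd he (ne_of_lt h1)
        · rw [if_neg h, Polynomial.coeff_zero, mul_zero]
      · intro h
        exact absurd (Finset.mem_univ _) h
    have hD0 : D ≠ 0 := by
      intro h0
      rw [h0, Polynomial.coeff_zero] at hcoeff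
      rcases Int.units_eq_one_or (Equiv.Perm.sign σ0) with h | h
      · rw [h] at hcoeff
        simp at hcoeff
      · rw [h] at hcoeff
        simp at hcoeff
    have hdeg : D.natDegree ≤ G := by
      rw [hDexp]
      apply Polynomial.natDegree_sum_le_of_forall_le
      intro τ _
      have : (((Equiv.Perm.sign τ : ℤˣ) : ℤ) : (ZMod p)[X])
          = C ((((Equiv.Perm.sign τ : ℤˣ) : ℤ) : ZMod p)) := by
        simp
      rw [this]
      refine (Polynomial.natDegree_C_mul_le _ _).trans ?_
      by_cases h : ∀ i : Fin (2 ^ L), E i.val (τ i).val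
      · rw [if_pos h]
        refine (Polynomial.natDegree_X_pow_le _).trans ?_
        calc ∑ i : Fin (2 ^ L), W i.val (τ i).val ≤ ∑ _i : Fin (2 ^ L), 2 ^ (8 * L ^ 2 + 8 * L) :=
              Finset.sum_le_sum fun i _ => (wt_lt L t ht _ _).le
          _ = G := by
              rw [Finset.sum_const, Finset.card_univ, Fintype.card_fin, smul_eq_mul, hG, ← pow_add]
              congr 1
              ring
      · rw [if_neg h, Polynomial.natDegree_zero]
        exact Nat.zero_le _
    obtain ⟨x, hx⟩ : ∃ x : ZMod p, D.eval x ≠ 0 := by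
      by_contra hcon
      push Not at hcon
      have h1 : (Finset.univ : Finset (ZMod p)) ⊆ D.roots.toFinset := by
        intro y _
        rw [Multiset.mem_toFinset, Polynomial.mem_roots hD0]
        exact hcon y
      have h2 := Finset.card_le_card h1
      rw [Finset.card_univ, ZMod.card] at h2
      have h3 := (Multiset.toFinset_card_le D.roots).trans (Polynomial.card_roots' D)
      omega
    -- parameters
    have hpos : 0 < p := hp.pos
    have hxval : x.val < p := ZMod.val_lt x
    have hQ : 2 * G < Qb L := by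
      unfold Qb
      rw [hG, ← pow_succ']
      exact Nat.pow_lt_pow_right (by norm_num) (by omega)
    set B : ℕ := 2 ^ (7 * L + 7) with hB
    have hB0 : 0 < B := by positivity
    have hd : ∀ r, t r - 1 < B := by
      intro r
      have := ht r
      omega
    set sv : ℕ := ∑ r ∈ Finset.range L, (t r - 1) * B ^ r with hsv
    have hsvlt : sv < B ^ L := sum_lt (fun r => t r - 1) hd L
    set ξ : ℕ := sv + B ^ L * ((p - 1) + Qb L * x.val) with hξ
    have hdiv : ξ / B ^ L = (p - 1) + Qb L * x.val := by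
      rw [hξ, Nat.add_mul_div_left _ _ (pow_pos hB0 L), Nat.div_eq_of_lt hsvlt, zero_add]
    have hxt : ∀ r ∈ Finset.range L, xt L ξ r = t r := by
      intro r hr
      rw [Finset.mem_range] at hr
      unfold xt
      have := dig (fun r => t r - 1) hd L r hr ((p - 1) + Qb L * x.val)
      rw [← hB, hξ, hsv, this]
      have := (ht r).1
      omega
    have hxq : xq L ξ = p := by
      unfold xq
      rw [← hB, hdiv, Nat.add_mul_mod_self_left, Nat.mod_eq_of_lt (by omega)]
      omega
    have hxx : xx L ξ = x.val := by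
      unfold xx
      rw [← hB, ← Nat.div_div_eq_div_mul, hdiv, Nat.add_mul_div_left _ _ (by omega),
        Nat.div_eq_of_lt (by omega), zero_add, Nat.mod_eq_of_lt (by omega)]
    have hkey : ∀ a q y : ℕ, 0 < q → a + a * ((q - 1) + y) = a * (q + y) := by
      intro a q y hq
      obtain ⟨q', rfl⟩ : ∃ q', q = q' + 1 := ⟨q - 1, by omega⟩
      rw [Nat.add_sub_cancel]
      ring
    have hξlt : ξ < Xb L := by
      unfold Xb
      rw [← hB]
      calc ξ < B ^ L + B ^ L * ((p - 1) + Qb L * x.val) := by
            rw [hξ]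
            exact Nat.add_lt_add_right hsvlt _
        _ = B ^ L * (p + Qb L * x.val) := hkey _ _ _ hpos
        _ ≤ B ^ L * (Qb L * Qb L) := by
            apply Nat.mul_le_mul_left
            have h1 : x.val + 1 ≤ Qb L := by omega
            calc p + Qb L * x.val ≤ Qb L + Qb L * x.val := by omega
              _ = Qb L * (x.val + 1) := by ring
              _ ≤ Qb L * Qb L := Nat.mul_le_mul_left _ h1
    refine ⟨ξ, hξlt, ?_⟩
    rw [hxq]
    intro hdvd
    have hcast : (((Matrix.of (fun i j : Fin (2 ^ L) => aM L E ξ i.val j.val)).det : ℤ) : ZMod p) = 0 :=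
      (ZMod.intCast_zmod_eq_zero_iff_dvd _ _).mpr hdvd
    have hM : (Matrix.of (fun i j : Fin (2 ^ L) => aM L E ξ i.val j.val))
        = Matrix.of (fun i j : Fin (2 ^ L) => if E i.val j.val then (x.val : ℤ) ^ W i.val j.val else 0) := by
      ext i j
      rw [Matrix.of_apply, Matrix.of_apply]
      unfold aM
      have hw : wt L (xt L ξ) i.val j.val = W i.val j.val := by
        rw [hW]
        unfold wt
        refine Finset.sum_congr rfl fun r hr => ?_
        rw [hxt r hr]
      rw [hw, hxx]
    rw [hM] at hcast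
    apply hx
    rw [hDexp, Polynomial.eval_finsetSum]
    rw [det_expand, Int.cast_sum] at hcast
    rw [← hcast]
    refine Finset.sum_congr rfl fun τ _ => ?_
    rw [Polynomial.eval_mul, Int.cast_mul]
    congr 1
    · simp
    · by_cases h : ∀ i : Fin (2 ^ L), E i.val (τ i).val
      · rw [if_pos h, if_pos h]
        simp
      · rw [if_neg h, if_neg h]
        simp
  · rintro ⟨ξ, -, hξ⟩
    have hdet : (Matrix.of (fun i j : Fin (2 ^ L) => aM L E ξ i.val j.val)).det ≠ 0 := by
      intro h
      apply hξ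
      rw [h]
      exact dvd_zero _
    rw [Matrix.det_apply] at hdet
    obtain ⟨σ, -, hσ⟩ := Finset.exists_ne_zero_of_sum_ne_zero hdet
    have hprod : ∏ i, (Matrix.of (fun i j : Fin (2 ^ L) => aM L E ξ i.val j.val)) (σ i) i ≠ 0 := by
      intro h
      apply hσ
      rw [h, smul_zero]
    rw [Finset.prod_ne_zero_iff] at hprod
    refine ⟨σ⁻¹, fun i => ?_⟩
    have h1 := hprod (σ⁻¹ i) (Finset.mem_univ _)
    have e1 : σ (σ⁻¹ i) = i := Equiv.apply_symm_apply σ i
    rw [Matrix.of_apply, e1] at h1
    by_contra hE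
    apply h1
    unfold aM
    rw [if_neg hE]

end Pool.Agent.Helper9.GS
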